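import Pool.Agent.H7.GT.Stmts

set_option autoImplicit false

open Finset

namespace Pool.GT7

open Pool.Agent.H23.KT Pool.Agent.H46.KW Pool.KQ

lemma KUM_mem_un {V : Type} [DecidableEq V] {b : ℕ} {P : Fin b → Finset V} {x : V} :
    x ∈ un P ↔ ∃ i, x ∈ P i := by simp [un]

lemma KUM_mem_non {V : Type} (G : SimpleGraph V) {X : Finset V} {u y : V} :
    y ∈ non G X u ↔ y ∈ X ∧ ¬ G.Adj u y := by
  classical
  unfold non
  rw [mem_filter]

lemma KUM_uniq {V : Type} {G : SimpleGraph V} {b : ℕ} {P : Fin b → Finset V} (hP : Par G P)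
    {x : V} {i k : Fin b} (h1 : x ∈ P i) (h2 : x ∈ P k) : i = k := by
  by_contra h
  exact (Finset.disjoint_left.1 (hP.dis i k h)) h1 h2

/-- The complete multipartite graph. -/
def KUM_H {V : Type} {b : ℕ} (P : Fin b → Finset V) : SimpleGraph V where
  Adj x y := x ≠ y ∧ ∃ i k, i ≠ k ∧ x ∈ P i ∧ y ∈ P k
  symm := ⟨by
    rintro x y ⟨h, i, k, hik, hx, hy⟩
    exact ⟨h.symm, k, i, hik.symm, hy, hx⟩⟩
  loopless := ⟨fun x h => h.1 rfl⟩

lemma KUM_le {V : Type} [DecidableEq V] {G : SimpleGraph V} {b : ℕ} {P : Fin b → Finset V}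
    (hP : Par G P) {x y : V} (hx : x ∈ un P) (hy : y ∈ un P) (h : G.Adj x y) :
    (KUM_H P).Adj x y := by
  obtain ⟨i, hi⟩ := KUM_mem_un.1 hx
  obtain ⟨k, hk⟩ := KUM_mem_un.1 hy
  refine ⟨h.ne, i, k, ?_, hi, hk⟩
  rintro rfl
  exact hP.ind i x hi y hk h

theorem KUM_thm (h1 : CPLStmt) (h2 : GRDStmt) : KUMStmt := by
  classical
  intro V _ G p w a e P hwp he0 he hP hlo hmis
  have hPH : Par (KUM_H P) P := by
    refine ⟨hP.dis, fun i u hu x hx h => ?_⟩
    obtain ⟨_, i', k', hik, hu', hx'⟩ := h
    exact hik ((KUM_uniq hP hu' hu).trans (KUM_uniq hP hx' hx).symm)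
  have hC := h1 (KUM_H P) P hPH (fun i k hik x hx y hy => by
    refine ⟨?_, i, k, hik, hx, hy⟩
    rintro rfl
    exact hik (KUM_uniq hP hx hy)) (w + 2)
  rw [← hC]
  set X := un P with hX
  set H := KUM_H P with hH
  -- ordered pairs
  set B : Finset (V × V) := (X ×ˢ X).filter (fun q => H.Adj q.1 q.2 ∧ ¬ G.Adj q.1 q.2) with hB
  set D : Finset (Finset V) := clq H X (w + 2) \ clq G X (w + 2) with hD
  have hsub : clq G X (w + 2) ⊆ clq H X (w + 2) := by
    intro T hT
    rw [mem_clq] at hT ⊢
    refine ⟨hT.1, hT.2.1, fun x hx y hy hxy => ?_⟩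
    exact KUM_le hP (hT.1 hx) (hT.1 hy) (hT.2.2 hx hy hxy)
  have hDc : D.card + kc G X (w + 2) = kc H X (w + 2) := by
    rw [kc_eq, kc_eq, hD]
    exact Finset.card_sdiff_add_card_eq_card hsub
  -- the number of pairs
  have htot : tot G P ≤ B.card := by
    have e1 : B.card = ∑ u ∈ X, (X.filter (fun y => H.Adj u y ∧ ¬ G.Adj u y)).card := by
      rw [hB, Finset.card_filter, Finset.sum_product]
      refine Finset.sum_congr rfl fun u _ => ?_
      rw [Finset.card_filter]
    have e2 : ∑ u ∈ X, (X.filter (fun y => H.Adj u y ∧ ¬ G.Adj u y)).card =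
        ∑ i, ∑ u ∈ P i, (X.filter (fun y => H.Adj u y ∧ ¬ G.Adj u y)).card := by
      rw [hX]
      unfold un
      exact Finset.sum_biUnion (fun i _ k _ hik => hP.dis i k hik)
    rw [e1, e2]
    unfold tot
    refine Finset.sum_le_sum fun i _ => ?_
    rw [Finset.sum_comm]
    refine Finset.sum_le_sum fun u hu => ?_
    have e3 : ∑ k ∈ univ.erase i, (non G (P k) u).card =
        ((univ.erase i).biUnion (fun k => non G (P k) u)).card := by
      rw [Finset.card_biUnion]
      intro k _ l _ hkl
      refine Finset.disjoint_left.2 fun y hy hy' => ?_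
      exact hkl (KUM_uniq hP ((KUM_mem_non G).1 hy).1 ((KUM_mem_non G).1 hy').1)
    rw [e3]
    refine Finset.card_le_card fun y hy => ?_
    obtain ⟨k, hk, hy⟩ := Finset.mem_biUnion.1 hy
    obtain ⟨hy1, hy2⟩ := (KUM_mem_non G).1 hy
    have hki : i ≠ k := fun h => (Finset.mem_erase.1 hk).1 h.symm
    rw [Finset.mem_filter]
    refine ⟨KUM_mem_un.2 ⟨k, hy1⟩, ⟨?_, i, k, hki, hu, hy1⟩, hy2⟩
    rintro rfl
    exact hki (KUM_uniq hP hu hy1)
  -- the constant
  set c : ℝ := (1 - 1 / (32 * ((p : ℝ) + 3))) * ((p + 1).choose w * (a : ℝ) ^ w) with hc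
  have hc0 : 0 ≤ c := by
    rw [hc]
    have h3 : (1 : ℝ) / (32 * ((p : ℝ) + 3)) ≤ 1 := by
      rw [div_le_one (by positivity)]
      have : (0 : ℝ) ≤ p := Nat.cast_nonneg p
      linarith
    have h4 : 0 ≤ 1 - 1 / (32 * ((p : ℝ) + 3)) := by linarith
    exact mul_nonneg h4 (by positivity)
  have hpair : ∀ q ∈ B, c ≤ kc G (cn G X {q.1, q.2}) w := by
    intro q hq
    rw [hB, Finset.mem_filter, Finset.mem_product] at hq
    obtain ⟨⟨hq1, hq2⟩, ⟨hne, i, k, hik, hi, hk⟩, hna⟩ := hq
    have := h2 G p a e P he0 he hP hlo hmis {q.1, q.2} 2 w (by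
      intro x hx
      rw [Finset.mem_insert, Finset.mem_singleton] at hx
      rcases hx with rfl | rfl
      · exact hq1
      · exact hq2) (by
      intro l
      rw [Finset.card_le_one]
      intro x hx y hy
      rw [Finset.mem_inter, Finset.mem_insert, Finset.mem_singleton] at hx hy
      obtain ⟨hx1, hx2⟩ := hx
      obtain ⟨hy1, hy2⟩ := hy
      rcases hx1 with rfl | rfl <;> rcases hy1 with rfl | rfl
      · rfl
      · exact absurd ((KUM_uniq hP hi hx2).trans (KUM_uniq hP hk hy2).symm) hik
      · exact absurd ((KUM_uniq hP hi hy2).trans (KUM_uniq hP hk hx2).symm) hik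
      · rfl) (Finset.card_pair hne) (by omega)
    rw [show p + 3 - 2 = p + 1 by omega] at this
    exact this
  -- double counting
  set r : V × V → Finset V → Prop := fun q T =>
    q.1 ∈ T ∧ q.2 ∈ T ∧ (T.erase q.1).erase q.2 ∈ clq G (cn G X {q.1, q.2}) w with hr
  have hup : ∀ q ∈ B, kc G (cn G X {q.1, q.2}) w ≤ (D.bipartiteAbove r q).card := by
    rintro ⟨u, y⟩ hq
    rw [hB, Finset.mem_filter, Finset.mem_product] at hq
    obtain ⟨⟨hu, hy⟩, hHa, hna⟩ := hq
    simp only at hu hy hHa hna
    have hne : u ≠ y := hHa.1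
    rw [kc_eq]
    have hnot : ∀ R ∈ clq G (cn G X {u, y}) w, u ∉ R ∧ y ∉ R := by
      intro R hR
      rw [mem_clq] at hR
      constructor
      · intro h
        have := (mem_cn.1 (hR.1 h)).2 u (by simp)
        exact G.loopless.irrefl u this
      · intro h
        have := (mem_cn.1 (hR.1 h)).2 y (by simp)
        exact G.loopless.irrefl y this
    refine Finset.card_le_card_of_injOn (fun R => insert u (insert y R)) ?_ ?_
    · intro R hR
      have hR' : R ∈ clq G (cn G X {u, y}) w := hR
      obtain ⟨huR, hyR⟩ := hnot R hR'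
      have hR2 := (mem_clq G).1 hR'
      have huyR : u ∉ insert y R := by
        rw [Finset.mem_insert]
        rintro (h | h)
        · exact hne h
        · exact huR h
      have hTX : insert u (insert y R) ⊆ X := by
        intro x hx
        rw [Finset.mem_insert, Finset.mem_insert] at hx
        rcases hx with rfl | rfl | hx
        · exact hu
        · exact hy
        · exact (mem_cn.1 (hR2.1 hx)).1
      have hRX : ∀ x ∈ R, x ∈ X ∧ G.Adj u x ∧ G.Adj y x := fun x hx =>
        ⟨(mem_cn.1 (hR2.1 hx)).1, (mem_cn.1 (hR2.1 hx)).2 u (by simp),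
          (mem_cn.1 (hR2.1 hx)).2 y (by simp)⟩
      rw [Finset.mem_coe, Finset.mem_bipartiteAbove]
      refine ⟨?_, ?_, ?_, ?_⟩
      · rw [hD, Finset.mem_sdiff, mem_clq, mem_clq]
        refine ⟨⟨hTX, ?_, ?_⟩, ?_⟩
        · rw [Finset.card_insert_of_notMem huyR, Finset.card_insert_of_notMem hyR, hR2.2.1]
        · rw [Finset.coe_insert, Finset.coe_insert, SimpleGraph.isClique_insert,
            SimpleGraph.isClique_insert]
          refine ⟨⟨fun x hx z hz hxz => ?_, fun x hx _ => ?_⟩, fun x hx _ => ?_⟩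
          · exact KUM_le hP (hRX x hx).1 (hRX z hz).1 (hR2.2.2 hx hz hxz)
          · exact KUM_le hP hy (hRX x hx).1 (hRX x hx).2.2
          · rcases hx with rfl | hx
            · exact hHa
            · exact KUM_le hP hu (hRX x hx).1 (hRX x hx).2.1
        · rintro ⟨_, _, hcl⟩
          exact hna (hcl (by simp) (by simp) hne)
      · exact Finset.mem_insert_self _ _
      · exact Finset.mem_insert_of_mem (Finset.mem_insert_self _ _)
      · simp only
        rw [Finset.erase_insert huyR, Finset.erase_insert hyR]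
        exact hR'
    · intro R hR R' hR' hRR
      obtain ⟨huR, hyR⟩ := hnot R hR
      obtain ⟨huR', hyR'⟩ := hnot R' hR'
      simp only at hRR
      have e1 : u ∉ insert y R := by
        rw [Finset.mem_insert]
        rintro (h | h)
        · exact hne h
        · exact huR h
      have e2 : u ∉ insert y R' := by
        rw [Finset.mem_insert]
        rintro (h | h)
        · exact hne h
        · exact huR' h
      rw [← Finset.erase_insert hyR, ← Finset.erase_insert e1, hRR, Finset.erase_insert e2,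
        Finset.erase_insert hyR']
  have hdown : ∀ T ∈ D, (B.bipartiteBelow r T).card ≤ 2 := by
    intro T _
    rcases (B.bipartiteBelow r T).eq_empty_or_nonempty with h0 | ⟨⟨u, y⟩, hq⟩
    · rw [h0]; simp
    · rw [Finset.mem_bipartiteBelow] at hq
      obtain ⟨hq, huT, hyT, hR⟩ := hq
      simp only at huT hyT hR
      have hR2 := (mem_clq G).1 hR
      have hadj : ∀ x ∈ T, ∀ z ∈ T, x ≠ z → ¬ G.Adj x z → (x = u ∧ z = y) ∨ (x = y ∧ z = u) := by
        intro x hx z hz hxz hna
        have hin : ∀ v ∈ T, v ≠ u → v ≠ y → v ∈ (T.erase u).erase y := fun v hv h1 h2 =>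
          Finset.mem_erase.2 ⟨h2, Finset.mem_erase.2 ⟨h1, hv⟩⟩
        by_cases hxu : x = u
        · by_cases hzy : z = y
          · exact Or.inl ⟨hxu, hzy⟩
          · exfalso
            have h3 := hin z hz (fun h => hxz (hxu.trans h.symm)) hzy
            have h4 := (mem_cn.1 (hR2.1 h3)).2 u (by simp)
            rw [hxu] at hna
            exact hna h4
        · by_cases hxy : x = y
          · by_cases hzu : z = u
            · exact Or.inr ⟨hxy, hzu⟩
            · exfalso
              have h3 := hin z hz hzu (fun h => hxz (hxy.trans h.symm))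
              have h4 := (mem_cn.1 (hR2.1 h3)).2 y (by simp)
              rw [hxy] at hna
              exact hna h4
          · exfalso
            have h3 := hin x hx hxu hxy
            by_cases hzu : z = u
            · have h4 := (mem_cn.1 (hR2.1 h3)).2 u (by simp)
              rw [hzu] at hna
              exact hna h4.symm
            · by_cases hzy : z = y
              · have h4 := (mem_cn.1 (hR2.1 h3)).2 y (by simp)
                rw [hzy] at hna
                exact hna h4.symm
              · exact hna (hR2.2.2 h3 (hin z hz hzu hzy) hxz)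
      have hss : B.bipartiteBelow r T ⊆ {(u, y), (y, u)} := by
        rintro ⟨u', y'⟩ hq'
        rw [Finset.mem_bipartiteBelow] at hq'
        obtain ⟨hq', hu', hy', _⟩ := hq'
        rw [hB, Finset.mem_filter] at hq'
        simp only at hu' hy' hq'
        rcases hadj u' hu' y' hy' hq'.2.1.1 hq'.2.2 with ⟨h3, h4⟩ | ⟨h3, h4⟩
        · rw [h3, h4]; simp
        · rw [h3, h4]; simp
      exact (Finset.card_le_card hss).trans Finset.card_le_two
  have hsum : (B.card : ℝ) * c ≤ 2 * D.card := by
    calc (B.card : ℝ) * c = ∑ q ∈ B, c := by rw [Finset.sum_const, nsmul_eq_mul]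
      _ ≤ ∑ q ∈ B, ((D.bipartiteAbove r q).card : ℝ) := by
          refine Finset.sum_le_sum fun q hq => (hpair q hq).trans ?_
          exact_mod_cast hup q hq
      _ = ((∑ q ∈ B, (D.bipartiteAbove r q).card : ℕ) : ℝ) := by push_cast; rfl
      _ = ((∑ T ∈ D, (B.bipartiteBelow r T).card : ℕ) : ℝ) := by
          rw [Finset.sum_card_bipartiteAbove_eq_sum_card_bipartiteBelow]
      _ ≤ ((∑ T ∈ D, 2 : ℕ) : ℝ) := by
          exact_mod_cast Finset.sum_le_sum hdown
      _ = 2 * D.card := by rw [Finset.sum_const, smul_eq_mul, Nat.cast_mul]; push_cast; ring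
  have h5 : (tot G P : ℝ) * c ≤ B.card * c :=
    mul_le_mul_of_nonneg_right (by exact_mod_cast htot) hc0
  have h6 : (D.card : ℝ) + kc G X (w + 2) = kc H X (w + 2) := by exact_mod_cast hDc
  linarith

end Pool.GT7
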